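import Mathlib

/-!
Rotations about the third coordinate axis and axisymmetric vector fields (swirl allowed).
-/

namespace Pool.Agent.Run7.h407.G.X

/-- The rotation by the angle `θ` about the third coordinate axis. -/
noncomputable def rot (θ : ℝ) (x : Fin 3 → ℝ) : Fin 3 → ℝ :=
  ![Real.cos θ * x 0 - Real.sin θ * x 1, Real.sin θ * x 0 + Real.cos θ * x 1, x 2]

/-- The vector field `u` is axisymmetric: it commutes with all rotations about the axis, that is,
its cylindrical components do not depend on the angle. -/
def Axi (u : (Fin 3 → ℝ) → (Fin 3 → ℝ)) : Prop := ∀ θ x, u (rot θ x) = rot θ (u x)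

end Pool.Agent.Run7.h407.G.X
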