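import Mathlib
import Pool.Agent.Run7.h407.PsiFld

/-!
The building blocks on the axis of symmetry: supports in the direction of the third axis.
-/

namespace Pool.Agent.Run7.h407.G.X

open Set Filter Topology MeasureTheory
open scoped ContDiff

/-- The unit vector along the axis of symmetry. -/
def ez : V := Pi.single 2 1

theorem ez_two : ez 2 = 1 := by
  unfold ez
  simp

theorem abs2_of_s2 {y : V} (h : s2 y ≤ 1 / 16) : |y 2| ≤ 1 / 4 :=
  abs_coord_le (by norm_num) (by linarith) 2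

theorem sw_chi_supp2 {y : V} (hy : sw chi y ≠ 0) : |y 2| ≤ 1 / 4 :=
  abs2_of_s2 (chi_tsupport (sw_ne hy))

theorem hc_supp2' {μ : ℝ} (hμ : 2 ≤ μ) {y : V} (hy : y ∈ tsupport (hc μ)) : |y 2| ≤ 1 / 4 := by
  apply abs2_of_s2
  have h1 := hc_supp hμ hy
  have h2 := inv_mu4_small hμ
  linarith

theorem sw_hc_supp2 {μ : ℝ} (hμ : 2 ≤ μ) {y : V} (hy : sw (hc μ) y ≠ 0) : |y 2| ≤ 1 / 4 :=
  hc_supp2' hμ (sw_ne hy)

theorem par_supp2 {μ : ℝ} (hμ : 2 ≤ μ) (δ : ℝ) {y : V} (hy : par δ (hc μ) Gp y ≠ 0) :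
    |y 2| ≤ 1 / 4 := by
  by_contra hcon
  apply hy
  have h1 : y ∉ tsupport Gp := fun h => hcon (abs2_of_s2 (Gp_tsupport h))
  have h2 : sw (pd 2 (hc μ)) y = 0 := by
    by_contra h
    exact hcon (hc_supp2' hμ (pd_tsupport 2 (sw_ne h)))
  unfold par
  rw [str_eq_zero h1, h2]
  simp

theorem sub_ez_two (x : V) : (x - ez) 2 = x 2 - 1 := by
  simp [ez_two]

theorem sub_mu_ez_two (μ : ℝ) (x : V) : (x - μ ^ 2 • ez) 2 = x 2 - μ ^ 2 := by
  simp [ez_two]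

theorem nhds_lt2 {x : V} {c : ℝ} (hx : x 2 < c) : ∀ᶠ y in 𝓝 x, y 2 < c :=
  ((continuous_apply 2).tendsto x).eventually (gt_mem_nhds hx)

theorem nhds_gt2 {x : V} {c : ℝ} (hx : c < x 2) : ∀ᶠ y in 𝓝 x, c < y 2 :=
  ((continuous_apply 2).tendsto x).eventually (lt_mem_nhds hx)

theorem par_left2 {μ : ℝ} (hμ : 2 ≤ μ) (δ : ℝ) {x : V} (hx : x 2 < 3 / 4) :
    par δ (hc μ) Gp (x - ez) = 0 := by
  by_contra hcon
  have h1 := abs_le.1 (par_supp2 hμ δ hcon)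
  rw [sub_ez_two] at h1
  linarith [h1.1]

theorem sw_hc_right2 {μ : ℝ} (hμ : 2 ≤ μ) {x : V} (hx : 3 / 2 < x 2) :
    sw (hc μ) (x - ez) = 0 := by
  by_contra hcon
  have h1 := abs_le.1 (sw_hc_supp2 hμ hcon)
  rw [sub_ez_two] at h1
  linarith [h1.2]

theorem pd_sw_zero2' {μ : ℝ} (hμ : 2 ≤ μ) {x : V} (hx : 3 / 2 < x 2) (i j : Fin 3) :
    pd j (fun y => sw (hc μ) y i) (x - ez) = 0 := by
  rw [← pd_trans (sw_hc_CF hμ)]
  have : (fun y => sw (hc μ) (y - ez) i) =ᶠ[𝓝 x] fun _ => (0 : ℝ) := by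
    filter_upwards [nhds_gt2 hx] with y hy
    rw [sw_hc_right2 hμ hy]
    rfl
  rw [pd_congr this, pd_const]

/-- Vanishing below a horizontal plane above the origin. -/
def Aw2 (g : V → V) : Prop := ∃ a > 0, ∀ x, x 2 < a → g x = 0

end Pool.Agent.Run7.h407.G.X
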