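import Mathlib
import Pool.Agent.Run7.h407.X.Bas
import Pool.Agent.Run7.h407.W.Space
import Pool.Agent.Run7.h407.W.Test

/-!
Fields which vanish below a horizontal plane above the origin.
-/

namespace Pool.Agent.Run7.h407.G.X

open Set Filter Topology MeasureTheory
open scoped ContDiff

theorem Aw2.add {g h : V → V} (hg : Aw2 g) (hh : Aw2 h) : Aw2 (fun x => g x + h x) := by
  obtain ⟨a, ha, h1⟩ := hg
  obtain ⟨b, hb, h2⟩ := hh
  refine ⟨min a b, lt_min ha hb, fun x hx => ?_⟩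
  show g x + h x = 0
  rw [h1 x (hx.trans_le (min_le_left _ _)), h2 x (hx.trans_le (min_le_right _ _)), add_zero]

theorem Aw2.sub {g h : V → V} (hg : Aw2 g) (hh : Aw2 h) : Aw2 (fun x => g x - h x) := by
  obtain ⟨a, ha, h1⟩ := hg
  obtain ⟨b, hb, h2⟩ := hh
  refine ⟨min a b, lt_min ha hb, fun x hx => ?_⟩
  show g x - h x = 0
  rw [h1 x (hx.trans_le (min_le_left _ _)), h2 x (hx.trans_le (min_le_right _ _)), sub_zero]

theorem Aw2.smul {g : V → V} (hg : Aw2 g) (c : ℝ) : Aw2 (fun x => c • g x) := by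
  obtain ⟨a, ha, h1⟩ := hg
  refine ⟨a, ha, fun x hx => ?_⟩
  show c • g x = 0
  rw [h1 x hx, smul_zero]

theorem Aw2.adv {g : V → V} (hg : Aw2 g) (h : V → V) : Aw2 (adv g h) := by
  obtain ⟨a, ha, h1⟩ := hg
  refine ⟨a, ha, fun x hx => adv_zero (Or.inl ?_)⟩
  filter_upwards [nhds_lt2 hx] with y hy
  exact h1 y hy

theorem Aw2.lap {g : V → V} (hg : Aw2 g) : Aw2 (lap g) := by
  obtain ⟨a, ha, h1⟩ := hg
  refine ⟨a, ha, fun x hx => lap_zero ?_⟩
  filter_upwards [nhds_lt2 hx] with y hy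
  exact h1 y hy

theorem ae_ne_zero2 : ∀ᵐ x : V, x 2 ≠ 0 := by
  have h : (volume : Measure V) {x : V | x 2 = 0} = 0 :=
    Measure.pi_hyperplane (fun _ : Fin 3 => (volume : Measure ℝ)) 2 0
  rw [ae_iff]
  simpa using h

end Pool.Agent.Run7.h407.G.X
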