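import Mathlib
import Pool.Agent.Run7.h407.X.Psi3
import Pool.Agent.Run7.h407.X.Awx
import Pool.Agent.Run7.h407.G.Scal

/-!
Uniform bounds of the norms of the building blocks on the axis.
-/

namespace Pool.Agent.Run7.h407.G.X

open Set Filter Topology MeasureTheory
open scoped ContDiff

/-- The building block as a sum of three pieces. -/
theorem psi3_pieces (r μ δ : ℝ) (x : V) : psi3 r μ δ x
    = str Gp (x - ez) + (δ * μ ^ 5) • sw (pd 2 chi) (μ ^ 2 • x - μ ^ 2 • ez)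
      + sw chi (x - r ^ 2 • ez) := by
  unfold psi3 par
  rw [sw_pd_hc, smul_smul, smul_sub]

section

variable {r μ : ℝ} (hr : 2 ≤ r) (hμ : 2 ≤ μ) (δ : ℝ)

include hr hμ in
/-- The two parts of the building block are far from each other. -/
theorem parts_disj (x : V) : (∀ᶠ y in 𝓝 x, par δ (hc μ) Gp (y - ez) = 0) ∨
    (∀ᶠ y in 𝓝 x, sw chi (y - r ^ 2 • ez) = 0) := by
  rcases lt_or_ge (x 2) 2 with h | h
  · right
    filter_upwards [nhds_lt2 h] with y hy
    by_contra hcon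
    have h1 := abs_le.1 (sw_chi_supp2 hcon)
    rw [sub_mu_ez_two] at h1
    nlinarith [h1.1]
  · left
    filter_upwards [nhds_gt2 (show 3 / 2 < x 2 by linarith)] with y hy
    by_contra hcon
    have h1 := abs_le.1 (par_supp2 hμ δ hcon)
    rw [sub_ez_two] at h1
    linarith [h1.2]

include hr hμ in
theorem N_eq : ip (psi3 r μ δ) (psi3 r μ δ)
    = ip (str Gp) (str Gp) + δ ^ 2 * (μ ^ 4 * S0) + β0 := by
  have c1 := trans_CF ((cpl hμ).par_CF δ) ez
  have c2 := trans_CF swc_CF (r ^ 2 • ez)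
  have h1 := ip_add_self c1 c2
  have h2 : ip (fun x => par δ (hc μ) Gp (x - ez)) (fun x => sw chi (x - r ^ 2 • ez)) = 0 :=
    ip_zero_of' fun x => (parts_disj hr hμ δ x).imp (fun h => h.self_of_nhds)
      (fun h => h.self_of_nhds)
  rw [h2, ip_trans, ip_trans, ip_sw] at h1
  have c3 : CF (sw (pd 2 (hc μ))) := sw_CF ((hc_sm μ).pd 2) (pd_cs (hc_cs hμ) 2)
  have h3 := ip_add_self str_CF (c3.smul δ)
  have h4 : ip (str Gp) (fun x => δ • sw (pd 2 (hc μ)) x) = 0 := by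
    unfold ip
    have : (fun x => ∑ i, str Gp x i * (δ • sw (pd 2 (hc μ)) x) i) = fun _ => 0 := by
      funext x
      rw [Fin.sum_univ_three]
      simp only [Pi.smul_apply, smul_eq_mul]
      rw [str_zero, str_one, sw_zero, sw_one, sw_two]
      ring
    rw [this]
    simp
  have h5 : ip (fun x => δ • sw (pd 2 (hc μ)) x) (fun x => δ • sw (pd 2 (hc μ)) x)
      = δ ^ 2 * (μ ^ 4 * S0) := by
    rw [ip_smul_left, ip_comm, ip_smul_left, ip_sw, ← S_scale hμ]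
    have : (fun y : V => (y 0 ^ 2 + y 1 ^ 2) * (pd 2 (hc μ) y * pd 2 (hc μ) y))
        = fun y => (y 0 ^ 2 + y 1 ^ 2) * pd 2 (hc μ) y ^ 2 := by
      funext y
      ring
    rw [this]
    ring
  rw [h4, h5] at h3
  have h6 : ip (par δ (hc μ) Gp) (par δ (hc μ) Gp)
      = ip (str Gp) (str Gp) + 2 * 0 + δ ^ 2 * (μ ^ 4 * S0) := h3
  have h7 : (∫ y : V, (y 0 ^ 2 + y 1 ^ 2) * (chi y * chi y)) = β0 := by
    unfold β0
    congr 1
    funext y
    ring
  rw [h6, h7] at h1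
  have h8 : ip (psi3 r μ δ) (psi3 r μ δ) = _ := h1
  rw [h8]
  ring

include hr hμ in
theorem D_low : S0 ≤ Dir (psi3 r μ δ) (psi3 r μ δ) := by
  have c1 := trans_CF ((cpl hμ).par_CF δ) ez
  have c2 := trans_CF swc_CF (r ^ 2 • ez)
  have h1 := Dir_add_self c1 c2
  rw [Dir_zero_of (parts_disj hr hμ δ), Dir_trans swc_CF swc_CF] at h1
  have h2 := Dir_nonneg' (fun x => par δ (hc μ) Gp (x - ez))
  have h3 : Dir (psi3 r μ δ) (psi3 r μ δ) = _ := h1
  rw [h3]
  have h4 : S0 ≤ Dir (sw chi) (sw chi) := by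
    unfold S0 Dir
    apply integral_mono
    · have hc : Continuous (fun y : V => (y 0 ^ 2 + y 1 ^ 2) * pd 2 chi y ^ 2) :=
        (((coord_sm 0).pow 2).add ((coord_sm 1).pow 2)).continuous.mul
          ((chi_sm.pd 2).continuous.pow 2)
      apply hc.integrable_of_hasCompactSupport
      apply HasCompactSupport.intro chi_cs.isCompact
      intro x hx
      rw [pd_eq_zero hx]
      ring
    · exact Dir_int swc_CF.sm swc_CF
    · intro y
      show (y 0 ^ 2 + y 1 ^ 2) * pd 2 chi y ^ 2 ≤ ∑ i, ∑ j, pd j (fun z => sw chi z i) y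
        * pd j (fun z => sw chi z i) y
      have k1 : ∀ i : Fin 3, pd 2 (fun z => sw chi z i) y * pd 2 (fun z => sw chi z i) y
          ≤ ∑ j, pd j (fun z => sw chi z i) y * pd j (fun z => sw chi z i) y := fun i =>
        Finset.single_le_sum (f := fun j => pd j (fun z => sw chi z i) y
          * pd j (fun z => sw chi z i) y) (fun j _ => mul_self_nonneg _) (Finset.mem_univ 2)
      have k2 := k1 0
      have k3 := k1 1
      have k4 : 0 ≤ ∑ j, pd j (fun z => sw chi z 2) y * pd j (fun z => sw chi z 2) y :=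
        Finset.sum_nonneg fun j _ => mul_self_nonneg _
      rw [Fin.sum_univ_three]
      have e0 : pd 2 (fun z => sw chi z 0) y = -(y 1) * pd 2 chi y := by
        rw [pd_sw_zero chi_sm]
        simp
      have e1' : pd 2 (fun z => sw chi z 1) y = y 0 * pd 2 chi y := by
        rw [pd_sw_one chi_sm]
        simp
      rw [e0] at k2
      rw [e1'] at k3
      have e2 : (y 0 ^ 2 + y 1 ^ 2) * pd 2 chi y ^ 2
          = -(y 1) * pd 2 chi y * (-(y 1) * pd 2 chi y)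
            + y 0 * pd 2 chi y * (y 0 * pd 2 chi y) := by ring
      rw [e2]
      linarith
  linarith

include hr hμ in
theorem D_up (hδ : |δ| * μ ^ 4 ≤ β0 / S0) : Dir (psi3 r μ δ) (psi3 r μ δ) ≤ Dup := by
  have hμ0 : 0 < μ := by linarith
  have c1 := trans_CF ((cpl hμ).par_CF δ) ez
  have c2 := trans_CF swc_CF (r ^ 2 • ez)
  have h1 := Dir_add_self c1 c2
  rw [Dir_zero_of (parts_disj hr hμ δ), Dir_trans swc_CF swc_CF,
    Dir_trans ((cpl hμ).par_CF δ) ((cpl hμ).par_CF δ)] at h1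
  have h3 : Dir (psi3 r μ δ) (psi3 r μ δ) = _ := h1
  rw [h3]
  have c3 : CF (sw (pd 2 (hc μ))) := sw_CF ((hc_sm μ).pd 2) (pd_cs (hc_cs hμ) 2)
  have h4 := Dir_add_self str_CF (c3.smul δ)
  have h4' : Dir (par δ (hc μ) Gp) (par δ (hc μ) Gp) = _ := h4
  have h5 := Dir_add_self str_CF ((c3.smul δ).smul (-1))
  have h6 := Dir_nonneg' (fun x => str Gp x + (-1 : ℝ) • (δ • sw (pd 2 (hc μ)) x))
  rw [h5] at h6
  have e1' : Dir (str Gp) (fun x => (-1 : ℝ) • (δ • sw (pd 2 (hc μ)) x))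
      = -Dir (str Gp) (fun x => δ • sw (pd 2 (hc μ)) x) := by
    rw [Dir_comm, Dir_smul_left _ (c3.smul δ), Dir_comm]
    ring
  have e2 : Dir (fun x => (-1 : ℝ) • (δ • sw (pd 2 (hc μ)) x))
      (fun x => (-1 : ℝ) • (δ • sw (pd 2 (hc μ)) x))
      = Dir (fun x => δ • sw (pd 2 (hc μ)) x) (fun x => δ • sw (pd 2 (hc μ)) x) := by
    rw [Dir_smul_left _ (c3.smul δ), Dir_comm, Dir_smul_left _ (c3.smul δ)]
    ring
  rw [e1', e2] at h6
  have e3 : Dir (fun x => δ • sw (pd 2 (hc μ)) x) (fun x => δ • sw (pd 2 (hc μ)) x)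
      = (|δ| * μ ^ 4) ^ 2 * Dir (sw (pd 2 chi)) (sw (pd 2 chi)) := by
    have e4 : (sw (pd 2 (hc μ))) = fun x => μ ^ 2 • dil μ (sw (pd 2 chi)) x :=
      funext fun x => sw_pd_hc' μ x
    have c4 : CF (dil μ (sw (pd 2 chi))) := dil_CF swd_CF hμ0.ne'
    rw [Dir_smul_left _ c3, Dir_comm, Dir_smul_left _ c3, e4, Dir_smul_left _ c4, Dir_comm,
      Dir_smul_left _ c4, Dir_dil swd_CF.smc swd_CF.smc hμ0, mul_pow, sq_abs]
    ring
  rw [e3] at h6 h4'
  have h7 : (|δ| * μ ^ 4) ^ 2 ≤ (β0 / S0) ^ 2 := by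
    apply pow_le_pow_left₀ (by positivity) hδ
  have h8 := mul_le_mul_of_nonneg_right h7 (Dir_nonneg' (sw (pd 2 chi)))
  unfold Dup
  linarith

include hr hμ in
theorem N_low : β0 ≤ ip (psi3 r μ δ) (psi3 r μ δ) := by
  rw [N_eq hr hμ]
  have h1 := ip_nonneg (str Gp)
  have h2 : 0 ≤ δ ^ 2 * (μ ^ 4 * S0) := by
    have := S0_pos
    positivity
  linarith

include hr hμ in
theorem N_up (hδ : |δ| * μ ^ 4 ≤ β0 / S0) : ip (psi3 r μ δ) (psi3 r μ δ) ≤ Nup := by
  rw [N_eq hr hμ]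
  have hS := S0_pos
  have h1 : (|δ| * μ ^ 4) ^ 2 ≤ (β0 / S0) ^ 2 := pow_le_pow_left₀ (by positivity) hδ 2
  have h2 : 1 ≤ μ ^ 4 := one_le_pow₀ (by linarith)
  have h3 : δ ^ 2 * (μ ^ 4 * S0) ≤ β0 ^ 2 / S0 := by
    calc δ ^ 2 * (μ ^ 4 * S0) ≤ δ ^ 2 * (μ ^ 4 * S0) * μ ^ 4 := by
          have : 0 ≤ δ ^ 2 * (μ ^ 4 * S0) := by positivity
          nlinarith
      _ = (|δ| * μ ^ 4) ^ 2 * S0 := by
          rw [mul_pow, sq_abs]
          ring
      _ ≤ (β0 / S0) ^ 2 * S0 := mul_le_mul_of_nonneg_right h1 hS.le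
      _ = _ := by
          field_simp
  unfold Nup
  linarith

end

end Pool.Agent.Run7.h407.G.X
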