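import Mathlib
import Pool.Agent.Run7.h407.X.Fit
import Pool.Agent.Run7.h407.G.Prm

/-!
The choice of the parameters: doubly exponential scales.
-/

namespace Pool.Agent.Run7.h407.G.X

open Set Filter Topology MeasureTheory
open scoped ContDiff

section

variable {R γ : ℝ}

end

/-- The data of the scales. -/
structure Pre (α γ s0 R : ℝ) : Prop where
  hα : 0 < α
  hγ : 1 < γ
  hs : 1 ≤ s0
  hR : 100 ≤ R
  cnd : ∀ x, R ≤ x → Cnd α γ x

variable {α γ s0 R : ℝ}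

theorem Pre.R1 (h : Pre α γ s0 R) : 1 < R := by linarith [h.hR]

theorem Pre.rh_le (h : Pre α γ s0 R) (n : ℕ) : R ≤ rh R γ n := rh_ge h.R1.le h.hγ.le n

theorem Pre.rh_pos (h : Pre α γ s0 R) (n : ℕ) : 0 < rh R γ n := by
  linarith [h.rh_le n, h.hR]

/-- The scales. -/
noncomputable def Pre.sc (h : Pre α γ s0 R) : Sc where
  s0 := s0
  ρ := rh R γ
  ε := fun n => Real.exp (-(3 * rh R γ n ^ α)) / rh R γ n ^ 5
  h0 := h.hs
  hρ := fun n => by linarith [h.rh_le n, h.hR]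
  hε := fun n => by
    have := h.rh_pos n
    positivity
  hε1 := fun n => by
    have h1 := h.rh_pos n
    rw [div_le_one (by positivity)]
    have h2 : 1 ≤ rh R γ n ^ 5 := one_le_pow₀ (by linarith [h.rh_le n, h.hR])
    have h3 : Real.exp (-(3 * rh R γ n ^ α)) ≤ 1 := by
      rw [Real.exp_le_one_iff]
      have : 0 < rh R γ n ^ α := Real.rpow_pos_of_pos h1 α
      linarith
    linarith

theorem Pre.ρ_eq (h : Pre α γ s0 R) (n : ℕ) : h.sc.ρ n = rh R γ n := rfl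

theorem Pre.stp (h : Pre α γ s0 R) : h.sc.Stp := by
  refine ⟨R, ⌈γ⌉₊ + 1, by linarith [h.hR], fun j => ?_⟩
  rw [h.sc.σ_succ, pow_succ]
  have h1 := h.sc.σ_pos j
  have h2 := h.sc.σ_one j
  have hR := h.hR
  have key : h.sc.ρ j ≤ R * h.sc.σ j ^ ⌈γ⌉₊ := by
    cases j with
    | zero =>
      rw [h.ρ_eq, rh_zero]
      have : 1 ≤ h.sc.σ 0 ^ ⌈γ⌉₊ := one_le_pow₀ h2
      nlinarith
    | succ n =>
      rw [h.ρ_eq, rh_succ (by linarith)]
      have h3 : rh R γ n ≤ h.sc.σ (n + 1) := h.sc.ρ_le n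
      have h4 : rh R γ n ^ γ ≤ h.sc.σ (n + 1) ^ γ :=
        Real.rpow_le_rpow (h.rh_pos n).le h3 (by linarith [h.hγ])
      have h5 : h.sc.σ (n + 1) ^ γ ≤ h.sc.σ (n + 1) ^ ((⌈γ⌉₊ : ℕ) : ℝ) :=
        Real.rpow_le_rpow_of_exponent_le h2 (Nat.le_ceil γ)
      rw [Real.rpow_natCast] at h5
      have h6 : 0 < h.sc.σ (n + 1) ^ ⌈γ⌉₊ := by positivity
      nlinarith
  calc h.sc.σ j * h.sc.ρ j ≤ h.sc.σ j * (R * h.sc.σ j ^ ⌈γ⌉₊) :=
        mul_le_mul_of_nonneg_left key h1.le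
    _ = _ := by ring

theorem Kq_pos (c : Sc) : 0 < Kq := div_pos ((c.nn_pos 0).trans_le (c.nn_up 0)) β0_pos

theorem quot_le (c : Sc) (m n : ℕ) : Nn c.P (m + 1) / Nn c.P (n + 1) ≤ Kq :=
  div_le_div₀ ((c.nn_pos 0).le.trans (c.nn_up 0)) (c.nn_up m) β0_pos (c.nn_low n)

theorem quot_ge (c : Sc) (m n : ℕ) : Kq⁻¹ ≤ Nn c.P (m + 1) / Nn c.P (n + 1) := by
  have h := quot_le c n m
  have h1 := c.nn_pos m
  have h2 := c.nn_pos n
  rw [inv_le_comm₀ (Kq_pos c) (by positivity), inv_div]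
  exact h

/-- The sequence `e`. -/
noncomputable def Pre.ee (h : Pre α γ s0 R) : ℕ → ℝ
  | 0 => 1 / 1000000
  | n + 1 => Real.exp (-(3 * rh R γ n ^ α)) * (Nn h.sc.P (n + 2) / Nn h.sc.P (n + 3))

theorem Pre.ee_pos (h : Pre α γ s0 R) (n : ℕ) : 0 < h.ee n := by
  cases n with
  | zero => exact (by norm_num : (0 : ℝ) < 1 / 1000000)
  | succ n => exact mul_pos (Real.exp_pos _) (div_pos (h.sc.nn_pos _) (h.sc.nn_pos _))

theorem Pre.ee_le' (h : Pre α γ s0 R) (n : ℕ) :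
    h.ee (n + 1) ≤ Kq * Real.exp (-(3 * rh R γ n ^ α)) := by
  show Real.exp (-(3 * rh R γ n ^ α)) * (Nn h.sc.P (n + 2) / Nn h.sc.P (n + 3)) ≤ _
  rw [mul_comm Kq]
  exact mul_le_mul_of_nonneg_left (quot_le h.sc (n + 1) (n + 2)) (Real.exp_pos _).le

theorem Pre.ee_ge (h : Pre α γ s0 R) (n : ℕ) :
    Kq⁻¹ * Real.exp (-(3 * rh R γ n ^ α)) ≤ h.ee (n + 1) := by
  show _ ≤ Real.exp (-(3 * rh R γ n ^ α)) * (Nn h.sc.P (n + 2) / Nn h.sc.P (n + 3))
  rw [mul_comm Kq⁻¹]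
  exact mul_le_mul_of_nonneg_left (quot_ge h.sc (n + 1) (n + 2)) (Real.exp_pos _).le

theorem Pre.pow_next (h : Pre α γ s0 R) (n : ℕ) :
    rh R γ (n + 1) ^ α = rh R γ n ^ (α * γ) := by
  rw [rh_succ (by linarith [h.hR]), ← Real.rpow_mul (h.rh_pos n).le, mul_comm]

theorem Pre.cn (h : Pre α γ s0 R) (n : ℕ) : Cnd α γ (rh R γ n) := h.cnd _ (h.rh_le n)

/-- The parameters of the reduced system. -/
noncomputable def Pre.par (h : Pre α γ s0 R) {ν a0 : ℝ} (hν : 0 ≤ ν) (ha0 : 0 < a0)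
    (h1 : 200 * (ν * (h.sc.σ 0 ^ 4 * Dup) / β0) * R ^ α ≤ a0)
    (h2 : ∀ k, 200 * (ν * (h.sc.σ (k + 1) ^ 4 * Dup) / β0)
      ≤ a0 * ∏ i ∈ Finset.range k, rh R γ (i + 1) ^ α) : Par where
  Λ := fun n => rh R γ n ^ α
  e := h.ee
  g := fun n => Nn h.sc.P (n + 3) ^ 2 / (h.sc.ρ n ^ 10 * Nn h.sc.P (n + 1) * Nn h.sc.P (n + 2))
  d := fun n => ν * Dd h.sc.P (n + 1) / Nn h.sc.P (n + 1)
  a0 := a0
  hΛ := fun n => (h.cn n).c1
  hmono := fun n => by
    rw [h.pow_next]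
    apply Real.rpow_le_rpow_of_exponent_le (by linarith [h.rh_le n, h.hR])
    nlinarith [h.hα, h.hγ]
  he := h.ee_pos
  he' := fun n => by
    cases n with
    | zero => exact le_rfl
    | succ n => exact (h.ee_le' n).trans (h.cn n).c3
  hg := fun n => by
    have a1 := h.sc.nn_pos n
    have a2 := h.sc.nn_pos (n + 1)
    have a3 := h.sc.nn_pos (n + 2)
    have a4 := h.sc.ρ_pos n
    positivity
  hg' := fun n => by
    rw [h.pow_next]
    have a1 := h.sc.nn_pos n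
    have a2 := h.sc.nn_pos (n + 1)
    have a3 := h.sc.nn_pos (n + 2)
    have a4 : 0 < h.sc.ρ n := h.sc.ρ_pos n
    have a5 : Kq ^ 2 * (h.sc.ρ n ^ (α * γ)) ^ 2 ≤ 1 / 10000 * h.sc.ρ n ^ 10 := (h.cn n).c4
    have q1 := quot_le h.sc (n + 2) n
    have q2 := quot_le h.sc (n + 2) (n + 1)
    have e : Nn h.sc.P (n + 3) ^ 2 / (h.sc.ρ n ^ 10 * Nn h.sc.P (n + 1) * Nn h.sc.P (n + 2))
        * (rh R γ n ^ (α * γ)) ^ 2
        = (Nn h.sc.P (n + 3) / Nn h.sc.P (n + 1)) * (Nn h.sc.P (n + 3) / Nn h.sc.P (n + 2))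
          * (h.sc.ρ n ^ (α * γ)) ^ 2 / h.sc.ρ n ^ 10 := by
      rw [h.ρ_eq]
      have := h.rh_pos n
      field_simp
    rw [e, div_le_iff₀ (by positivity)]
    refine le_trans (mul_le_mul_of_nonneg_right ?_ (sq_nonneg _)) a5
    rw [pow_two]
    have hK := Kq_pos h.sc
    exact mul_le_mul q1 q2 (by positivity) hK.le
  hd := fun n => by
    have a1 := h.sc.nn_pos n
    have a2 := h.sc.dd_low n
    have a3 := S0_pos
    have a4 := h.sc.σ_pos n
    have a5 : 0 ≤ Dd h.sc.P (n + 1) := le_trans (by positivity) a2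
    positivity
  hdm := fun n => by
    have a1 := h.sc.nn_pos n
    have a2 := h.sc.nn_pos (n + 1)
    have a3 := h.sc.dd_up n
    have a4 := h.sc.dd_low (n + 1)
    have a5 := h.sc.nn_low n
    have a6 := h.sc.nn_up (n + 1)
    have a7 : Dup * Nup / (β0 * S0) ≤ h.sc.ρ n ^ 4 := (h.cn n).c5
    have a8 := S0_pos
    have a9 := β0_pos
    have b1 := h.sc.σ_pos n
    have b2 := h.sc.σ_succ n
    have b3 := h.sc.ρ_pos n
    have b4 := h.sc.dd_low n
    have b5 : 0 < Dd h.sc.P (n + 1) := lt_of_lt_of_le (by positivity) b4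
    have b6 : 0 < Nup := a2.trans_le a6
    rw [mul_div_assoc, mul_div_assoc]
    apply mul_le_mul_of_nonneg_left _ hν
    rw [div_le_iff₀ (by positivity)] at a7
    have c1 : Dd h.sc.P (n + 1) / Nn h.sc.P (n + 1) ≤ h.sc.σ n ^ 4 * Dup / β0 := by
      apply div_le_div₀ (b5.le.trans a3) a3 a9 a5
    have c2 : h.sc.σ (n + 1) ^ 4 * S0 / Nup ≤ Dd h.sc.P (n + 2) / Nn h.sc.P (n + 2) := by
      apply div_le_div₀ _ a4 a2 a6
      exact le_trans (by have := h.sc.σ_pos (n + 1); positivity) a4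
    refine c1.trans (le_trans ?_ c2)
    rw [div_le_div_iff₀ a9 b6, b2, mul_pow]
    have c3 := mul_le_mul_of_nonneg_left a7 (by positivity : 0 ≤ h.sc.σ n ^ 4)
    linarith
  ha0 := ha0
  hda0 := by
    refine le_trans ?_ h1
    have a1 := h.sc.nn_pos 0
    have a3 := h.sc.dd_up 0
    have a5 := h.sc.nn_low 0
    have a8 := S0_pos
    have a9 := β0_pos
    have b1 := h.sc.σ_pos 0
    have b4 := h.sc.dd_low 0
    have b5 : 0 < Dd h.sc.P (0 + 1) := lt_of_lt_of_le (by positivity) b4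
    have hR : 0 < R := by linarith [h.hR]
    rw [rh_zero]
    apply mul_le_mul_of_nonneg_right _ (Real.rpow_pos_of_pos hR α).le
    apply mul_le_mul_of_nonneg_left _ (by norm_num)
    apply div_le_div₀ (by have := b5.le.trans a3; positivity) _ a9 a5
    exact mul_le_mul_of_nonneg_left a3 hν
  hda := fun k => by
    refine le_trans ?_ (h2 k)
    have a1 := h.sc.nn_pos (k + 1)
    have a3 := h.sc.dd_up (k + 1)
    have a5 := h.sc.nn_low (k + 1)
    have a8 := S0_pos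
    have a9 := β0_pos
    have b1 := h.sc.σ_pos (k + 1)
    have b4 := h.sc.dd_low (k + 1)
    have b5 : 0 < Dd h.sc.P (k + 1 + 1) := lt_of_lt_of_le (by positivity) b4
    apply mul_le_mul_of_nonneg_left _ (by norm_num)
    apply div_le_div₀ (by have := b5.le.trans a3; positivity) _ a9 a5
    exact mul_le_mul_of_nonneg_left a3 hν
  hexp1 := fun n => by
    have a1 := h.ee_ge n
    have a2 := h.ee_le' n
    have a3 := (h.cn n).c7
    have a4 := (h.cn n).c3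
    have hK := Kq_pos h.sc
    rw [h.pow_next]
    have a5 : h.ee (n + 1) ≤ 1 := by linarith
    have a6 : 2 * rh R γ n ^ (α * γ) + 1 ≤ Kq⁻¹ * Real.exp (rh R γ n ^ α) := by
      rw [inv_mul_eq_div, le_div_iff₀ hK]
      linarith
    have a7 := mul_le_mul_of_nonneg_right a1 (Real.exp_pos (4 * rh R γ n ^ α)).le
    have a8 : Kq⁻¹ * Real.exp (-(3 * rh R γ n ^ α)) * Real.exp (4 * rh R γ n ^ α)
        = Kq⁻¹ * Real.exp (rh R γ n ^ α) := by
      rw [mul_assoc, ← Real.exp_add]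
      congr 2
      ring
    rw [a8] at a7
    linarith
  hexp2 := fun n => by
    have a2 := h.ee_le' n
    have a3 := (h.cn n).c8
    have a7 := mul_le_mul_of_nonneg_right a2 (Real.exp_pos (2.3 * rh R γ n ^ α)).le
    have a8 : Kq * Real.exp (-(3 * rh R γ n ^ α)) * Real.exp (2.3 * rh R γ n ^ α)
        = Kq * Real.exp (-(0.7 * rh R γ n ^ α)) := by
      rw [mul_assoc, ← Real.exp_add]
      congr 2
      ring
    rw [a8] at a7
    linarith

section

variable (h : Pre α γ s0 R) {ν a0 : ℝ} (hν : 0 ≤ ν) (ha0 : 0 < a0)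
    (h1 : 200 * (ν * (h.sc.σ 0 ^ 4 * Dup) / β0) * R ^ α ≤ a0)
    (h2 : ∀ k, 200 * (ν * (h.sc.σ (k + 1) ^ 4 * Dup) / β0)
      ≤ a0 * ∏ i ∈ Finset.range k, rh R γ (i + 1) ^ α)

theorem Pre.fit : h.sc.FitP ν (h.par hν ha0 h1 h2) := by
  refine ⟨fun n => ?_, fun n => rfl, fun n => rfl⟩
  show Real.exp (-(3 * rh R γ n ^ α)) * (Nn h.sc.P (n + 2) / Nn h.sc.P (n + 3))
    = Real.exp (-(3 * rh R γ n ^ α)) / rh R γ n ^ 5 * rh R γ n ^ 5 * Nn h.sc.P (n + 2)
      / Nn h.sc.P (n + 3)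
  have := h.rh_pos n
  have := h.sc.nn_pos (n + 2)
  field_simp

theorem Pre.pw : PW (h.par hν ha0 h1 h2) h.sc.σ := by
  have hK := Kq_pos h.sc
  have ht := rh_tend h.R1 h.hγ
  have hβ := β0_pos
  have hS := S0_pos
  refine ⟨h.sc.wgt h.stp, ⟨h.sc.σ_pos, fun k => ?_⟩, ?_, ?_⟩
  · have t1 := ((exp_tend h.hα (γ * k) (b := 3) (by norm_num)).comp ht).const_mul Kq
    rw [mul_zero] at t1
    apply squeeze_zero _ _ t1
    · intro i
      have a1 := h.ee_pos (i + 1)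
      have a2 := h.sc.σ_pos (i + 1)
      have a3 := h.sc.σ_pos (i + 2)
      show 0 ≤ h.ee (i + 1) * (h.sc.σ (i + 2) / h.sc.σ (i + 1)) ^ k
      positivity
    · intro i
      have a2 := h.sc.σ_pos (i + 1)
      have e : h.sc.σ (i + 2) / h.sc.σ (i + 1) = rh R γ i ^ γ := by
        rw [h.sc.σ_succ (i + 1), h.ρ_eq, rh_succ (by linarith [h.hR])]
        field_simp
      show h.ee (i + 1) * (h.sc.σ (i + 2) / h.sc.σ (i + 1)) ^ k
        ≤ Kq * (rh R γ i ^ (γ * k) * Real.exp (-(3 * rh R γ i ^ α)))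
      rw [e, ← Real.rpow_natCast (rh R γ i ^ γ) k, ← Real.rpow_mul (h.rh_pos i).le]
      have a3 : 0 < rh R γ i ^ (γ * k) := Real.rpow_pos_of_pos (h.rh_pos i) _
      have := mul_le_mul_of_nonneg_right (h.ee_le' i) a3.le
      linarith
  · have hD : 0 ≤ Dup := by
      have a3 := h.sc.dd_up 0
      have b1 := h.sc.σ_pos 0
      have b4 := h.sc.dd_low 0
      have b5 : 0 < h.sc.σ 0 ^ 4 * S0 := by positivity
      by_contra hcon
      push Not at hcon
      nlinarith [pow_pos b1 4]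
    refine ⟨ν * Dup / β0, 4, by positivity, fun j => ?_⟩
    have a1 := h.sc.nn_pos j
    have a3 := h.sc.dd_up j
    have a5 := h.sc.nn_low j
    have b1 := h.sc.σ_pos j
    have b4 := h.sc.dd_low j
    have b5 : 0 < Dd h.sc.P (j + 1) := lt_of_lt_of_le (by positivity) b4
    show |ν * Dd h.sc.P (j + 1) / Nn h.sc.P (j + 1)| ≤ _
    rw [abs_of_nonneg (by positivity)]
    have e : ν * Dup / β0 * h.sc.σ j ^ 4 = ν * (h.sc.σ j ^ 4 * Dup) / β0 := by ring
    rw [e]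
    apply div_le_div₀ (by positivity) _ hβ a5
    exact mul_le_mul_of_nonneg_left a3 hν
  · rw [← tendsto_add_atTop_iff_nat 1]
    have t1 := (exp_tend0 h.hα Kq (b := 3) (by norm_num)).comp ht
    exact squeeze_zero (fun n => (h.ee_pos (n + 1)).le) (fun n => h.ee_le' n) t1

end

end Pool.Agent.Run7.h407.G.X
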