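import Mathlib
import Pool.Agent.Run7.h407.X.Prm
import Pool.Agent.Run7.h407.G.Spc

/-!
The spaces between the span of the modes and the space given by the constraints.
-/

namespace Pool.Agent.Run7.h407.G.X

open Set Filter Topology MeasureTheory
open scoped ContDiff

variable {P : ℕ → V → V} {lo hi : ℕ → ℝ} {R : ℝ}

theorem mem_rep (h : Chn P lo hi R) {c : ℕ → ℝ} {v : V → V} (hm : Mem P c v)
    {x : V} (hx : x 2 ≠ 0) : ∃ K : ℕ, ∀ᶠ y in 𝓝 x, v y = ∑ n ∈ Finset.range K, c n • P n y := by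
  obtain ⟨K, hK⟩ := h.fin_near hx
  refine ⟨K, ?_⟩
  filter_upwards [hK] with y hy
  have h1 : HasSum (fun n => c n • P n y) (∑ n ∈ Finset.range K, c n • P n y) := by
    apply hasSum_sum_of_ne_finset_zero
    intro n hn
    rw [Finset.mem_range, not_lt] at hn
    rw [hy n hn, smul_zero]
  exact (hm y).unique h1

theorem mem_local (h : Chn P lo hi R) {c : ℕ → ℝ} {v : V → V} (hm : Mem P c v)
    {x : V} (hx : x 2 ≠ 0) : dvg v x = 0 := by
  obtain ⟨K, hK⟩ := mem_rep h hm hx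
  rw [dvg_congr hK, dvg_sum h.cf]
  apply Finset.sum_eq_zero
  intro n _
  rw [h.dv, mul_zero]

theorem mem_dvg (h : Chn P lo hi R) {c : ℕ → ℝ} {v : V → V} (hm : Mem P c v)
    (hv : ContDiff ℝ ∞ v) (x : V) : dvg v x = 0 := by
  by_cases hx : x 2 = 0
  · have hc : Continuous (dvg v) := by
      unfold dvg
      apply continuous_finsetSum
      intro i _
      exact ((sm_comp hv i).pd i).continuous
    have hl : Continuous (fun t : ℝ => x + t • (Pi.single 2 1 : V)) := by fun_prop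
    have h1 : Tendsto (fun t : ℝ => dvg v (x + t • (Pi.single 2 1 : V))) (𝓝[≠] 0)
        (𝓝 (dvg v (x + (0 : ℝ) • (Pi.single 2 1 : V)))) :=
      ((hc.comp hl).tendsto 0).mono_left nhdsWithin_le_nhds
    have h2 : Tendsto (fun t : ℝ => dvg v (x + t • (Pi.single 2 1 : V))) (𝓝[≠] 0) (𝓝 0) := by
      apply tendsto_const_nhds.congr'
      filter_upwards [self_mem_nhdsWithin] with t ht
      symm
      apply mem_local h hm
      simp only [Pi.add_apply, Pi.smul_apply, Pi.single_eq_same, smul_eq_mul, mul_one]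
      rw [hx, zero_add]
      exact ht
    have h3 := tendsto_nhds_unique h1 h2
    simpa using h3
  · exact mem_local h hm hx

/-- Superpositions of the fields are orthogonal to `g` if the fields are. -/
theorem mem_orth (h : Chn P lo hi R) {c : ℕ → ℝ} {v : V → V} (hm : Mem P c v)
    {g : V → V} (hg : CF g) (ha : Aw2 g) (hk : ∀ k, ip (P k) g = 0) : ip v g = 0 := by
  obtain ⟨a, ha0, ha⟩ := ha
  obtain ⟨K, hK⟩ := h.fin_far ha0
  have e : ∀ x, ∑ i, v x i * g x i
      = ∑ k ∈ Finset.range K, c k * ∑ i, P k x i * g x i := by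
    intro x
    rcases lt_or_ge (x 2) a with hx | hx
    · rw [ha x hx]
      simp
    · have h1 : HasSum (fun n => c n • P n x)
          (∑ n ∈ Finset.range K, c n • P n x) := by
        apply hasSum_sum_of_ne_finset_zero
        intro n hn
        rw [Finset.mem_range, not_lt] at hn
        rw [hK x hx n hn, smul_zero]
      have h2 := (hm x).unique h1
      rw [h2]
      simp_rw [Finset.mul_sum]
      rw [Finset.sum_comm]
      apply Finset.sum_congr rfl
      intro i _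
      rw [Finset.sum_apply, Finset.sum_mul]
      apply Finset.sum_congr rfl
      intro k _
      simp only [Pi.smul_apply, smul_eq_mul]
      ring
  unfold ip
  simp_rw [e]
  rw [integral_finsetSum _ fun k _ => (ip_int (h.cf k).sm.continuous hg).const_mul _]
  apply Finset.sum_eq_zero
  intro k _
  rw [integral_const_mul]
  have := hk k
  unfold ip at this
  rw [this, mul_zero]

/-- The fields of the chain vanish on a half space containing the origin. -/
theorem Chn.aw (h : Chn P lo hi R) (j : ℕ) : Aw2 (P j) := by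
  refine ⟨lo j, h.lo0 j, fun x hx => ?_⟩
  by_contra hcon
  linarith [(h.supp j x hcon).1]

theorem Chn.aw_A (h : Chn P lo hi R) (j : ℕ) : Aw2 (GA P j) :=
  ((h.aw (j + 1)).adv _).add (((h.aw (j + 2)).smul _).sub ((h.aw j).smul _))

theorem Chn.aw_B (h : Chn P lo hi R) (j : ℕ) : Aw2 (GB P j) :=
  (((h.aw (j + 1)).adv _).add ((h.aw (j + 2)).adv _)).add
    (((h.aw (j + 2)).smul _).sub ((h.aw (j + 1)).smul _))

theorem Chn.aw_C (h : Chn P lo hi R) (j : ℕ) : Aw2 (GC P j) :=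
  (h.aw (j + 1)).lap.add ((h.aw (j + 1)).smul _)

theorem G3_CF (h : Chn P lo hi R) (n : ℕ) (i : Fin 3) : CF (G3 P n i) := by
  fin_cases i
  · exact h.GA_CF n
  · exact h.GB_CF n
  · exact h.GC_CF n

theorem G3_aw (h : Chn P lo hi R) (n : ℕ) (i : Fin 3) : Aw2 (G3 P n i) := by
  fin_cases i
  · exact h.aw_A n
  · exact h.aw_B n
  · exact h.aw_C n

theorem WmaxG_isSp (h : Chn P lo hi R) (hG : ∀ n i, L2F (G3 P n i)) :
    IsSpG (fun n => P (n + 1)) (G3 P) (WmaxG (G3 P) hG) := by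
  refine ⟨fun w hw => hw.1, fun w hw => hw.2.1, fun w hw => hw.2.2, ?_⟩
  rintro v hv hvc ⟨c, hm⟩
  have hm' := mem_of_shift h.zero hm
  have hC : CF v := ⟨hv, hvc⟩
  refine ⟨hC.l2, wdf_of_dvg hv (mem_dvg h hm' hv), fun n i => ?_⟩
  apply mem_orth h hm' (G3_CF h n i) (G3_aw h n i)
  intro k
  have hk := h.con (1 : ℝ) k
  rw [ip_comm]
  fin_cases i
  · exact hk.ca n
  · exact hk.cb n
  · exact hk.cc one_ne_zero n

namespace Sc

variable {c : Sc}

/-- The velocity field solves the equations projected on each of the spaces. -/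
theorem vel_isProj {ν : ℝ} {p : Par} (hf : c.FitP ν p) (hw : PW p c.σ) {Tb : ℝ} {A : ℕ → ℝ → ℝ}
    (S : Sol p Tb A) {W : Submodule ℝ (V → V)} (hW : IsSpG (fun n => c.P (n + 1)) (G3 c.P) W) :
    IsProj W ν Tb (vel c.P (c.cof A)) := by
  have hT := vel_TF hw S
  refine ⟨hT.cls, fun t ht => ?_, fun t ht w hw' => vel_test hf hw S ht (hW.con hw' ν)⟩
  exact hW.mem _ (hT.slice_CF ht).sm (hT.slice_CF ht).cs
    ⟨_, shift_of_mem c.chn.zero (vel_mem hw.wg c.bv (cof_ts hw S) ht)⟩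

/-- Maximality of the velocity field. -/
theorem vel_max {ν : ℝ} {p : Par} (hf : c.FitP ν p) (hw : PW p c.σ) {Tb : ℝ} {A : ℕ → ℝ → ℝ}
    (S : Sol p Tb A) (hν : 0 ≤ ν) {W : Submodule ℝ (V → V)}
    (hW : IsSpG (fun n => c.P (n + 1)) (G3 c.P) W)
    (hb : ∀ M, ∀ᶠ t in 𝓝[<] Tb, ∃ x, M < ‖vel c.P (c.cof A) t x‖)
    {T' : ℝ} {u : ℝ → V → V} (hu : IsProj W ν T' u)
    (h0 : ∀ x, u 0 x = vel c.P (c.cof A) 0 x) :
    T' ≤ Tb ∧ ∀ t ∈ Ico 0 T', u t = vel c.P (c.cof A) t := by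
  have hT := vel_TF hw S
  have hv := vel_isProj hf hw S hW
  have hle : T' ≤ Tb := by
    by_contra hcon
    push Not at hcon
    have h1 := proj_uniqueG hW hν (hu.restrict hcon.le) hv (fun _ hs => hT.grad_bdd hs) h0
    obtain ⟨C, hC⟩ := hu.cls.bd Tb ⟨S.Tpos.le, hcon⟩
    obtain ⟨t, ⟨x, hx⟩, ht⟩ := ((hb C).and (Ioo_mem_nhdsLT S.Tpos)).exists
    have h2 := (hC t ⟨ht.1.le, ht.2.le⟩).1 x
    rw [h1 t ⟨ht.1.le, ht.2⟩] at h2
    linarith
  exact ⟨hle, proj_uniqueG hW hν hu (hv.restrict hle)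
    (fun s hs => hT.grad_bdd ⟨hs.1, hs.2.trans_le hle⟩) h0⟩

end Sc

end Pool.Agent.Run7.h407.G.X
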