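import Mathlib
import Pool.Agent.Run7.h407.X.Sup
import Pool.Agent.Run7.h407.X.RotDefs

/-!
Axisymmetry of all the fields.
-/

namespace Pool.Agent.Run7.h407.G.X

open Set Filter Topology MeasureTheory
open scoped ContDiff

theorem rot_zero' (θ : ℝ) (x : V) : rot θ x 0 = Real.cos θ * x 0 - Real.sin θ * x 1 := rfl
theorem rot_one' (θ : ℝ) (x : V) : rot θ x 1 = Real.sin θ * x 0 + Real.cos θ * x 1 := rfl
theorem rot_two' (θ : ℝ) (x : V) : rot θ x 2 = x 2 := rfl

theorem ext3 {x y : V} (h0 : x 0 = y 0) (h1 : x 1 = y 1) (h2 : x 2 = y 2) : x = y := by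
  funext i
  fin_cases i
  · exact h0
  · exact h1
  · exact h2

theorem rot_add (θ : ℝ) (x y : V) : rot θ (x + y) = rot θ x + rot θ y := by
  apply ext3
  · rw [Pi.add_apply, rot_zero', rot_zero', rot_zero', Pi.add_apply, Pi.add_apply]
    ring
  · rw [Pi.add_apply, rot_one', rot_one', rot_one', Pi.add_apply, Pi.add_apply]
    ring
  · rfl

theorem rot_smul (θ r : ℝ) (x : V) : rot θ (r • x) = r • rot θ x := by
  apply ext3
  · rw [Pi.smul_apply, rot_zero', rot_zero', Pi.smul_apply, Pi.smul_apply]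
    simp only [smul_eq_mul]
    ring
  · rw [Pi.smul_apply, rot_one', rot_one', Pi.smul_apply, Pi.smul_apply]
    simp only [smul_eq_mul]
    ring
  · rfl

/-- The rotation as a continuous linear map. -/
noncomputable def rotL (θ : ℝ) : V →L[ℝ] V :=
  LinearMap.toContinuousLinearMap
    { toFun := rot θ
      map_add' := rot_add θ
      map_smul' := rot_smul θ }

theorem rotL_apply (θ : ℝ) (x : V) : rotL θ x = rot θ x := rfl

theorem rot_sub (θ : ℝ) (x y : V) : rot θ (x - y) = rot θ x - rot θ y := (rotL θ).map_sub x y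

theorem rot_zero (θ : ℝ) : rot θ (0 : V) = 0 := (rotL θ).map_zero

theorem rot_ez (θ : ℝ) : rot θ ez = ez := by
  unfold ez
  apply ext3
  · rw [rot_zero']
    simp
  · rw [rot_one']
    simp
  · rfl

theorem rot_cont (θ : ℝ) : Continuous (rot θ : V → V) := (rotL θ).continuous

theorem rot_s0 (θ : ℝ) : rot θ (Pi.single 0 1 : V)
    = Real.cos θ • (Pi.single 0 1 : V) + Real.sin θ • (Pi.single 1 1 : V) := by
  apply ext3
  · rw [rot_zero']
    simp
  · rw [rot_one']
    simp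
  · rw [rot_two']
    simp

theorem rot_s1 (θ : ℝ) : rot θ (Pi.single 1 1 : V)
    = -Real.sin θ • (Pi.single 0 1 : V) + Real.cos θ • (Pi.single 1 1 : V) := by
  apply ext3
  · rw [rot_zero']
    simp
  · rw [rot_one']
    simp
  · rw [rot_two']
    simp

theorem rot_s2 (θ : ℝ) : rot θ (Pi.single 2 1 : V) = Pi.single 2 1 := rot_ez θ

theorem fd_rot {f : V → ℝ} (θ : ℝ) (x v : V) (hf : DifferentiableAt ℝ f (rot θ x)) :
    fderiv ℝ (fun y => f (rot θ y)) x v = fderiv ℝ f (rot θ x) (rot θ v) := by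
  have h1 : HasFDerivAt (fun y : V => rot θ y) (rotL θ) x := (rotL θ).hasFDerivAt
  have h2 : HasFDerivAt (fun y => f (rot θ y)) ((fderiv ℝ f (rot θ x)).comp (rotL θ)) x :=
    hf.hasFDerivAt.comp x h1
  rw [h2.fderiv]
  rfl

theorem pd_rot0 {f : V → ℝ} (θ : ℝ) (x : V) (hf : DifferentiableAt ℝ f (rot θ x)) :
    pd 0 (fun y => f (rot θ y)) x
      = Real.cos θ * pd 0 f (rot θ x) + Real.sin θ * pd 1 f (rot θ x) := by
  unfold pd
  rw [fd_rot θ x _ hf, rot_s0, map_add, map_smul, map_smul]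
  rfl

theorem pd_rot1 {f : V → ℝ} (θ : ℝ) (x : V) (hf : DifferentiableAt ℝ f (rot θ x)) :
    pd 1 (fun y => f (rot θ y)) x
      = -Real.sin θ * pd 0 f (rot θ x) + Real.cos θ * pd 1 f (rot θ x) := by
  unfold pd
  rw [fd_rot θ x _ hf, rot_s1, map_add, map_smul, map_smul]
  rfl

theorem pd_rot2 {f : V → ℝ} (θ : ℝ) (x : V) (hf : DifferentiableAt ℝ f (rot θ x)) :
    pd 2 (fun y => f (rot θ y)) x = pd 2 f (rot θ x) := by
  unfold pd
  rw [fd_rot θ x _ hf, rot_s2]

/-- The Laplacian is invariant under rotations. -/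
theorem lap_rot {f : V → ℝ} (hf : Sm f) (θ : ℝ) (x : V) :
    ∑ j, pd j (pd j (fun y => f (rot θ y))) x = ∑ j, pd j (pd j f) (rot θ x) := by
  have hr : ContDiff ℝ ∞ (fun y : V => rot θ y) := (rotL θ).contDiff
  have hc : ∀ g : V → ℝ, Sm g → Sm (fun y => g (rot θ y)) := fun g hg => hg.comp hr
  have e0 : pd 0 (fun y => f (rot θ y))
      = fun y => Real.cos θ * pd 0 f (rot θ y) + Real.sin θ * pd 1 f (rot θ y) :=
    funext fun y => pd_rot0 θ y (hf.diff _)
  have e1 : pd 1 (fun y => f (rot θ y))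
      = fun y => -Real.sin θ * pd 0 f (rot θ y) + Real.cos θ * pd 1 f (rot θ y) :=
    funext fun y => pd_rot1 θ y (hf.diff _)
  have e2 : pd 2 (fun y => f (rot θ y)) = fun y => pd 2 f (rot θ y) :=
    funext fun y => pd_rot2 θ y (hf.diff _)
  have key : ∀ (a b : ℝ) (j : Fin 3), pd j (fun y => a * pd 0 f (rot θ y) + b * pd 1 f (rot θ y)) x
      = a * pd j (fun y => pd 0 f (rot θ y)) x + b * pd j (fun y => pd 1 f (rot θ y)) x := by
    intro a b j
    have s0 : Sm (fun y => a * pd 0 f (rot θ y)) := contDiff_const.mul (hc _ (hf.pd 0))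
    have s1 : Sm (fun y => b * pd 1 f (rot θ y)) := contDiff_const.mul (hc _ (hf.pd 1))
    rw [pd_add (s0.diff x) (s1.diff x), pd_const_mul a ((hc _ (hf.pd 0)).diff x),
      pd_const_mul b ((hc _ (hf.pd 1)).diff x)]
  rw [Fin.sum_univ_three, Fin.sum_univ_three, e0, e1, e2, key, key,
    pd_rot0 θ x ((hf.pd 0).diff _), pd_rot0 θ x ((hf.pd 1).diff _),
    pd_rot1 θ x ((hf.pd 0).diff _), pd_rot1 θ x ((hf.pd 1).diff _),
    pd_rot2 θ x ((hf.pd 2).diff _), pd_comm hf 0 1]
  have h := Real.sin_sq_add_cos_sq θ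
  linear_combination (pd 0 (pd 0 f) (rot θ x) + pd 1 (pd 1 f) (rot θ x)) * h

theorem Axi.add {u v : V → V} (hu : Axi u) (hv : Axi v) : Axi (fun x => u x + v x) := by
  intro θ x
  show u (rot θ x) + v (rot θ x) = rot θ (u x + v x)
  rw [hu, hv, rot_add]

theorem Axi.sub {u v : V → V} (hu : Axi u) (hv : Axi v) : Axi (fun x => u x - v x) := by
  intro θ x
  show u (rot θ x) - v (rot θ x) = rot θ (u x - v x)
  rw [hu, hv, rot_sub]

theorem Axi.smul {u : V → V} (hu : Axi u) (c : ℝ) : Axi (fun x => c • u x) := by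
  intro θ x
  show c • u (rot θ x) = rot θ (c • u x)
  rw [hu, rot_smul]

theorem Axi.trans {u : V → V} (hu : Axi u) (a : ℝ) : Axi (fun x => u (x - a • ez)) := by
  intro θ x
  show u (rot θ x - a • ez) = rot θ (u (x - a • ez))
  rw [← hu, rot_sub, rot_smul, rot_ez]

theorem Axi.dil {u : V → V} (hu : Axi u) (s : ℝ) : Axi (dil s u) := by
  intro θ x
  unfold Run7.h407.dil
  rw [← rot_smul, hu, rot_smul]

/-- The components of axisymmetric fields. -/
theorem Axi.comp {u : V → V} (hu : Axi u) (θ : ℝ) :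
    (fun y => u (rot θ y) 0) = (fun y => Real.cos θ * u y 0 + -Real.sin θ * u y 1) ∧
    (fun y => u (rot θ y) 1) = (fun y => Real.sin θ * u y 0 + Real.cos θ * u y 1) ∧
    (fun y => u (rot θ y) 2) = (fun y => u y 2) := by
  refine ⟨funext fun y => ?_, funext fun y => ?_, funext fun y => ?_⟩
  · rw [hu, rot_zero']
    ring
  · rw [hu, rot_one']
  · rw [hu, rot_two']

theorem pd_lin2 {f g : V → ℝ} (hf : Sm f) (hg : Sm g) (a b : ℝ) (j : Fin 3) (x : V) :
    pd j (fun y => a * f y + b * g y) x = a * pd j f x + b * pd j g x := by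
  have s0 : Sm (fun y => a * f y) := contDiff_const.mul hf
  have s1 : Sm (fun y => b * g y) := contDiff_const.mul hg
  rw [pd_add (s0.diff x) (s1.diff x), pd_const_mul a (hf.diff x), pd_const_mul b (hg.diff x)]

theorem Axi.adv {u v : V → V} (hu : Axi u) (hv : Axi v) (hs : ∀ i, Sm (fun y => v y i)) :
    Axi (adv u v) := by
  intro θ x
  obtain ⟨c0, c1, c2⟩ := hv.comp θ
  have hux := hu θ x
  have key : ∀ i, Run7.h407.adv u v (rot θ x) i
      = u x 0 * pd 0 (fun y => v (rot θ y) i) x + u x 1 * pd 1 (fun y => v (rot θ y) i) x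
        + u x 2 * pd 2 (fun y => v (rot θ y) i) x := by
    intro i
    rw [pd_rot0 θ x ((hs i).diff _), pd_rot1 θ x ((hs i).diff _), pd_rot2 θ x ((hs i).diff _)]
    unfold Run7.h407.adv
    rw [Fin.sum_univ_three, hux, rot_zero', rot_one', rot_two']
    ring
  have e : ∀ i, Run7.h407.adv u v x i = u x 0 * pd 0 (fun y => v y i) x
      + u x 1 * pd 1 (fun y => v y i) x + u x 2 * pd 2 (fun y => v y i) x := by
    intro i
    unfold Run7.h407.adv
    rw [Fin.sum_univ_three]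
  apply ext3
  · rw [key, c0, rot_zero', e, e, pd_lin2 (hs 0) (hs 1), pd_lin2 (hs 0) (hs 1),
      pd_lin2 (hs 0) (hs 1)]
    ring
  · rw [key, c1, rot_one', e, e, pd_lin2 (hs 0) (hs 1), pd_lin2 (hs 0) (hs 1),
      pd_lin2 (hs 0) (hs 1)]
    ring
  · rw [key, c2, rot_two', e]

theorem Axi.lap {u : V → V} (hu : Axi u) (hs : ∀ i, Sm (fun y => u y i)) : Axi (lap u) := by
  intro θ x
  obtain ⟨c0, c1, c2⟩ := hu.comp θ
  have key : ∀ i, Run7.h407.lap u (rot θ x) i = ∑ j, pd j (pd j (fun y => u (rot θ y) i)) x := by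
    intro i
    rw [lap_rot (hs i)]
    rfl
  have k2 : ∀ (a b : ℝ), ∑ j, pd j (pd j (fun y => a * u y 0 + b * u y 1)) x
      = a * Run7.h407.lap u x 0 + b * Run7.h407.lap u x 1 := by
    intro a b
    have h1 : ∀ j, pd j (fun y => a * u y 0 + b * u y 1)
        = fun y => a * pd j (fun z => u z 0) y + b * pd j (fun z => u z 1) y := fun j =>
      funext fun y => pd_lin2 (hs 0) (hs 1) a b j y
    simp_rw [h1]
    have h2 : ∀ j, pd j (fun y => a * pd j (fun z => u z 0) y + b * pd j (fun z => u z 1) y) x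
        = a * pd j (pd j (fun z => u z 0)) x + b * pd j (pd j (fun z => u z 1)) x := fun j =>
      pd_lin2 ((hs 0).pd j) ((hs 1).pd j) a b j x
    simp_rw [h2]
    rw [Finset.sum_add_distrib, ← Finset.mul_sum, ← Finset.mul_sum]
    rfl
  apply ext3
  · rw [key, c0, k2, rot_zero']
    ring
  · rw [key, c1, k2, rot_one']
  · rw [key, c2, rot_two']
    rfl

/-- Rotationally invariant functions. -/
def AxS (f : V → ℝ) : Prop := ∀ θ x, f (rot θ x) = f x

theorem AxS.pd2 {f : V → ℝ} (hf : Sm f) (h : AxS f) : AxS (pd 2 f) := by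
  intro θ x
  rw [← pd_rot2 θ x (hf.diff _)]
  have e : (fun y => f (rot θ y)) = f := funext fun y => h θ y
  rw [e]

theorem s2_rot (θ : ℝ) (x : V) : s2 (rot θ x) = s2 x := by
  unfold s2
  rw [rot_zero', rot_one', rot_two']
  have h := Real.sin_sq_add_cos_sq θ
  linear_combination (x 0 ^ 2 + x 1 ^ 2) * h

theorem chi_AxS : AxS chi := by
  intro θ x
  unfold chi
  rw [s2_rot]

theorem Gp_AxS : AxS Gp := by
  intro θ x
  unfold Gp
  rw [chi_AxS, rot_two']

theorem hc_AxS (μ : ℝ) : AxS (hc μ) := by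
  intro θ x
  unfold hc
  rw [← rot_smul, chi_AxS]

theorem sw_Axi {h : V → ℝ} (hh : AxS h) : Axi (sw h) := by
  intro θ x
  apply ext3
  · rw [sw_zero, hh, rot_zero', rot_one', sw_zero, sw_one]
    ring
  · rw [sw_one, hh, rot_zero', rot_one', sw_zero, sw_one]
    ring
  · rw [rot_two', sw_two, sw_two]

theorem str_Axi {G : V → ℝ} (hG : Sm G) (h : AxS G) : Axi (str G) := by
  intro θ x
  have e : (fun y => G (rot θ y)) = G := funext fun y => h θ y
  have h0 := pd_rot0 θ x (hG.diff (rot θ x))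
  have h1 := pd_rot1 θ x (hG.diff (rot θ x))
  rw [e] at h0 h1
  have h2 := (h.pd2 hG) θ x
  apply ext3
  · rw [str_zero, h2, rot_zero', rot_zero', str_zero, str_one]
    ring
  · rw [str_one, h2, rot_one', rot_one', str_zero, str_one]
    ring
  · rw [rot_two', str_two, str_two, h, h0, h1, rot_zero', rot_one']
    ring

theorem psi3_Axi (r μ δ : ℝ) (hμ : 2 ≤ μ) : Axi (psi3 r μ δ) := by
  have h1 : Axi (par δ (hc μ) Gp) :=
    (str_Axi Gp_sm Gp_AxS).add ((sw_Axi ((hc_AxS μ).pd2 (hc_sm μ))).smul δ)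
  have h2 := h1.trans 1
  have h3 := (sw_Axi chi_AxS).trans (r ^ 2)
  have e : (fun x => par δ (hc μ) Gp (x - (1 : ℝ) • ez)) = fun x => par δ (hc μ) Gp (x - ez) := by
    funext x
    rw [one_smul]
  rw [e] at h2
  exact h2.add h3

namespace Sc

variable (c : Sc)

theorem P_Axi (n : ℕ) : Axi (c.P n) := by
  cases n with
  | zero =>
    intro θ x
    show (0 : V) = rot θ 0
    rw [rot_zero]
  | succ n => exact (psi3_Axi _ _ _ (c.hρ n)).dil _

theorem adv_Axi (m n : ℕ) : Axi (adv (c.P m) (c.P n)) :=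
  (c.P_Axi m).adv (c.P_Axi n) (c.chn.cf n).smc

theorem G3_Axi (n : ℕ) (i : Fin 3) : Axi (G3 c.P n i) := by
  fin_cases i
  · exact (c.adv_Axi _ _).add (((c.P_Axi _).smul _).sub ((c.P_Axi _).smul _))
  · exact ((c.adv_Axi _ _).add (c.adv_Axi _ _)).add (((c.P_Axi _).smul _).sub ((c.P_Axi _).smul _))
  · exact ((c.P_Axi _).lap (c.chn.cf _).smc).add ((c.P_Axi _).smul _)

end Sc

/-- Superpositions of axisymmetric fields. -/
theorem mem_Axi {P : ℕ → V → V} (hP : ∀ n, Axi (P n)) {c : ℕ → ℝ} {v : V → V} (hm : Mem P c v) :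
    Axi v := by
  intro θ x
  have h1 := hm (rot θ x)
  have h2 : HasSum (fun n => c n • P n (rot θ x)) (rot θ (v x)) := by
    have h3 := (hm x).mapL (rotL θ)
    refine (congrArg (fun f => HasSum f (rot θ (v x))) (funext fun n => ?_)).mp h3
    rw [map_smul, rotL_apply, hP]
  exact h1.unique h2

end Pool.Agent.Run7.h407.G.X
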